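import Pool.Agent.Cov.PNT

set_option autoImplicit false

/-! # The least prime not dividing a product of consecutive integers -/

namespace Pool.Agent.K6.H26.LP

open Finset Filter Topology
open scoped Classical

/-- the product `(n + 1) ⋯ (n + k)` -/
def P (n k : ℕ) : ℕ := ∏ i ∈ Icc 1 k, (n + i)

/-- the least prime not dividing `(n + 1) ⋯ (n + k)` -/
noncomputable def q (n k : ℕ) : ℕ := sInf {p : ℕ | p.Prime ∧ ¬ p ∣ P n k}

theorem dvd_of_lt_q {n k p : ℕ} (hp : p.Prime) (h : p < q n k) : p ∣ P n k := by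
  have h1 := Nat.notMem_of_lt_sInf h
  by_contra hcon
  exact h1 ⟨hp, hcon⟩

theorem le_q {n k Y : ℕ} (h : ∀ p : ℕ, p.Prime → p ≤ Y → p ∣ P n k) : Y + 1 ≤ q n k := by
  have hne : {p : ℕ | p.Prime ∧ ¬ p ∣ P n k}.Nonempty := by
    have hP : 0 < P n k := Finset.prod_pos (fun i hi => by
      have := (mem_Icc.1 hi).1
      omega)
    obtain ⟨p, hp1, hp2⟩ := Nat.exists_infinite_primes (P n k + 1)
    refine ⟨p, hp2, fun hd => ?_⟩
    have := Nat.le_of_dvd hP hd
    omega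
  have h1 := Nat.sInf_mem hne
  by_contra hcon
  exact h1.2 (h _ h1.1 (by unfold q at hcon; omega))

theorem count_le (Y Z k : ℕ) (hZ : Z < primorial Y) :
    ((Icc 1 Z).filter (fun n => ∀ p : ℕ, p.Prime → p ≤ Y → p ∣ P n k)).card ≤
      k ^ (Nat.primeCounting Y) := by
  classical
  have hex : ∀ n p : ℕ, ∃ i : ℕ, (p.Prime ∧ p ∣ P n k) → (i ∈ Icc 1 k ∧ p ∣ n + i) := by
    intro n p
    by_cases h : p.Prime ∧ p ∣ P n k
    · obtain ⟨i, hi, hpi⟩ := (Prime.dvd_finsetProd_iff h.1.prime _).1 h.2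
      exact ⟨i, fun _ => ⟨hi, hpi⟩⟩
    · exact ⟨0, fun h' => absurd h' h⟩
  choose c hc using hex
  have hmem : ∀ p, p ∈ Nat.primesLE Y ↔ p ≤ Y ∧ p.Prime := fun p => Nat.mem_primesLE
  have hcard : ((Nat.primesLE Y).pi (fun _ => Icc 1 k)).card = k ^ (Nat.primeCounting Y) := by
    rw [Finset.card_pi, Finset.prod_const, Nat.card_Icc, Nat.add_sub_cancel,
      Nat.primesLE_card_eq_primeCounting]
  rw [← hcard]
  apply Finset.card_le_card_of_injOn (fun n => fun p (_ : p ∈ Nat.primesLE Y) => c n p)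
  · intro n hn
    rw [Finset.mem_coe, mem_filter] at hn
    rw [Finset.mem_coe, Finset.mem_pi]
    intro p hp
    obtain ⟨hp1, hp2⟩ := (hmem p).1 hp
    exact (hc n p ⟨hp2, hn.2 p hp2 hp1⟩).1
  · -- injectivity, for `m ≤ n`
    have key : ∀ n m : ℕ, n ∈ (Icc 1 Z).filter (fun n => ∀ p : ℕ, p.Prime → p ≤ Y → p ∣ P n k) →
        m ∈ (Icc 1 Z).filter (fun n => ∀ p : ℕ, p.Prime → p ≤ Y → p ∣ P n k) →
        (∀ p ∈ Nat.primesLE Y, c n p = c m p) → m ≤ n → n = m := by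
      intro n m hn hm he hmn
      rw [mem_filter, mem_Icc] at hn hm
      by_contra hne
      have hdiv : ∀ p ∈ Nat.primesLE Y, p ∣ n - m := by
        intro p hp
        obtain ⟨hp1, hp2⟩ := (hmem p).1 hp
        have h1 := (hc n p ⟨hp2, hn.2 p hp2 hp1⟩).2
        have h2 := (hc m p ⟨hp2, hm.2 p hp2 hp1⟩).2
        rw [he p hp] at h1
        have h3 := Nat.dvd_sub h1 h2
        have e : n + c m p - (m + c m p) = n - m := by omega
        rwa [e] at h3
      have h4 : primorial Y ∣ n - m := by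
        rw [primorial_eq_prod_primesLE]
        exact Finset.prod_primes_dvd _ (fun p hp => ((hmem p).1 hp).2.prime) hdiv
      have h5 := Nat.le_of_dvd (by omega) h4
      omega
    intro n hn m hm he
    rw [Finset.mem_coe] at hn hm
    have he' : ∀ p ∈ Nat.primesLE Y, c n p = c m p := fun p hp => congrFun (congrFun he p) hp
    rcases le_total m n with h | h
    · exact key n m hn hm he' h
    · exact (key m n hm hn (fun p hp => (he' p hp).symm) h).symm

theorem ev_theta (η : ℝ) (hη : 0 < η) : ∀ᶠ y : ℝ in atTop, (1 - η) * y ≤ Chebyshev.theta y ∧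
    Chebyshev.theta y ≤ (1 + η) * y := by
  have h := Pool.Agent.Cov.PNT.theta_div_tendsto
  have h1 := h.eventually (Ioo_mem_nhds (show 1 - η < 1 by linarith) (show 1 < 1 + η by linarith))
  filter_upwards [h1, eventually_gt_atTop (0 : ℝ)] with y hy hy0
  obtain ⟨h2, h3⟩ := hy
  rw [lt_div_iff₀ hy0] at h2
  rw [div_lt_iff₀ hy0] at h3
  exact ⟨h2.le, h3.le⟩

theorem primorial_eq_exp (y : ℝ) : (primorial ⌊y⌋₊ : ℝ) = Real.exp (Chebyshev.theta y) := by
  rw [Chebyshev.theta_eq_log_primorial, Real.exp_log]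
  exact_mod_cast primorial_pos _

/-- one level -/
theorem level (ε : ℝ) (hε : 0 < ε) : ∃ Z₀ : ℝ, ∀ Z : ℝ, Z₀ ≤ Z → ∀ k : ℕ,
    ((Icc 1 ⌊Z⌋₊).filter (fun n : ℕ => (1 + ε / 2) * Real.log Z < q n k)).card ≤
      k ^ (Nat.primeCounting ⌊(1 + ε / 2) * Real.log Z⌋₊) := by
  have h1 := ev_theta (ε / 4 / (1 + ε / 2)) (by positivity)
  have h2 : Tendsto (fun Z : ℝ => (1 + ε / 2) * Real.log Z) atTop atTop :=
    Real.tendsto_log_atTop.const_mul_atTop (by positivity)
  obtain ⟨Z₀, hZ₀⟩ := eventually_atTop.1 ((h2.eventually h1).and (eventually_gt_atTop (1 : ℝ)))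
  refine ⟨Z₀, fun Z hZ k => ?_⟩
  obtain ⟨⟨e1, _⟩, e2⟩ := hZ₀ Z hZ
  have hl : 0 < Real.log Z := Real.log_pos e2
  have e3 : (1 - ε / 4 / (1 + ε / 2)) * ((1 + ε / 2) * Real.log Z) = (1 + ε / 4) * Real.log Z := by
    field_simp
    ring
  rw [e3] at e1
  have hprim : ⌊Z⌋₊ < primorial ⌊(1 + ε / 2) * Real.log Z⌋₊ := by
    have h3 : Z < (primorial ⌊(1 + ε / 2) * Real.log Z⌋₊ : ℝ) := by
      rw [primorial_eq_exp]
      calc Z = Real.exp (Real.log Z) := (Real.exp_log (by linarith)).symm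
        _ < Real.exp (Chebyshev.theta ((1 + ε / 2) * Real.log Z)) := by
          apply Real.exp_lt_exp.2
          nlinarith
    have h4 : (⌊Z⌋₊ : ℝ) ≤ Z := Nat.floor_le (by linarith)
    exact_mod_cast lt_of_le_of_lt h4 h3
  refine le_trans (card_le_card ?_) (count_le _ _ k hprim)
  intro n hn
  rw [mem_filter] at hn ⊢
  refine ⟨hn.1, fun p hp hpy => dvd_of_lt_q hp ?_⟩
  have h5 : (p : ℝ) ≤ (1 + ε / 2) * Real.log Z :=
    (Nat.cast_le.2 hpy).trans (Nat.floor_le (by positivity))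
  have h6 : (p : ℝ) < q n k := lt_of_le_of_lt h5 hn.2
  exact_mod_cast h6

theorem upper (ε δ : ℝ) (hε : 0 < ε) (hδ : 0 < δ) : ∃ κ : ℝ, 0 < κ ∧ ∃ X₀ : ℝ, ∀ X : ℝ, X₀ ≤ X →
    ∀ k : ℕ, 1 ≤ k → (k : ℝ) ≤ (Real.log X) ^ κ →
    (((Icc 1 ⌊X⌋₊).filter (fun n : ℕ => (1 + ε) * Real.log n ≤ q n k)).card : ℝ) ≤ X ^ δ := by
  classical
  obtain ⟨Z₀, hlev⟩ := level ε hε
  obtain ⟨L, hL⟩ := exists_nat_ge (4 * (1 + ε) / (δ * ε) + 1)
  have hL1 : (1 : ℝ) ≤ L := by
    have : 0 ≤ 4 * (1 + ε) / (δ * ε) := by positivity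
    linarith
  have hL0 : (0 : ℝ) < L := by linarith
  obtain ⟨κ, hκ⟩ : ∃ κ : ℝ, κ = δ / (4 * (2 + ε)) := ⟨_, rfl⟩
  have hκ0 : 0 < κ := by rw [hκ]; positivity
  have t1 : ∀ᶠ X : ℝ in atTop, max Z₀ 1 ≤ X ^ (δ / 2) :=
    (tendsto_rpow_atTop (by positivity)).eventually_ge_atTop _
  have t2 : ∀ᶠ X : ℝ in atTop, (L : ℝ) + 1 ≤ X ^ (δ / 2) :=
    (tendsto_rpow_atTop (by positivity)).eventually_ge_atTop _
  have hyt : Tendsto (fun X : ℝ => (1 + ε / 2) * Real.log X) atTop atTop :=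
    Real.tendsto_log_atTop.const_mul_atTop (by positivity)
  have t3 := hyt.eventually (Chebyshev.eventually_primeCounting_le (ε := 1 / 2) (by norm_num))
  have t4 := Real.tendsto_log_atTop.eventually_ge_atTop (3 : ℝ)
  obtain ⟨X₀, hX₀⟩ := eventually_atTop.1 (((t1.and t2).and (t3.and t4)).and (eventually_gt_atTop (1 : ℝ)))
  refine ⟨κ, hκ0, X₀, fun X hX k hk hkX => ?_⟩
  obtain ⟨⟨⟨e1, e2⟩, e3, e4⟩, e5⟩ := hX₀ X hX
  have hX0 : 0 < X := by linarith
  have hlX : 0 < Real.log X := by linarith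
  have hlX1 : 1 ≤ Real.log X := by linarith
  obtain ⟨Y, hY⟩ : ∃ Y : ℕ, Y = ⌊(1 + ε / 2) * Real.log X⌋₊ := ⟨_, rfl⟩
  rw [← hY] at e3
  -- the bound for one level
  have hkpow : (k : ℝ) ^ (Nat.primeCounting Y) ≤ X ^ (δ / 4) := by
    have hk0 : (0 : ℝ) < k := by exact_mod_cast hk
    have hll : 0 < Real.log (Real.log X) := Real.log_pos (by linarith)
    have hlogy : Real.log (Real.log X) ≤ Real.log ((1 + ε / 2) * Real.log X) :=
      Real.log_le_log hlX (by nlinarith)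
    have hlk : Real.log k ≤ κ * Real.log (Real.log X) := by
      have := Real.log_le_log hk0 hkX
      rwa [Real.log_rpow hlX] at this
    have hlk0 : 0 ≤ Real.log k := Real.log_nonneg (by exact_mod_cast hk)
    have hlog4 : Real.log 4 + 1 / 2 ≤ 2 := by
      have h4 : Real.log 4 = 2 * Real.log 2 := by
        rw [show (4 : ℝ) = 2 ^ 2 by norm_num, Real.log_pow]; norm_num
      have := Real.log_two_lt_d9
      linarith
    have hpi : (Nat.primeCounting Y : ℝ) ≤ 2 * ((1 + ε / 2) * Real.log X) / Real.log (Real.log X) := by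
      refine e3.trans ?_
      have h1 : (Real.log 4 + 1 / 2) * ((1 + ε / 2) * Real.log X) ≤ 2 * ((1 + ε / 2) * Real.log X) :=
        mul_le_mul_of_nonneg_right hlog4 (by positivity)
      calc (Real.log 4 + 1 / 2) * ((1 + ε / 2) * Real.log X) / Real.log ((1 + ε / 2) * Real.log X) ≤
          2 * ((1 + ε / 2) * Real.log X) / Real.log ((1 + ε / 2) * Real.log X) :=
            div_le_div_of_nonneg_right h1 (hll.le.trans hlogy)
        _ ≤ _ := div_le_div_of_nonneg_left (by positivity) hll hlogy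
    have h2 : (Nat.primeCounting Y : ℝ) * Real.log k ≤ (δ / 4) * Real.log X := by
      have h3 : (Nat.primeCounting Y : ℝ) * Real.log k ≤
          2 * ((1 + ε / 2) * Real.log X) / Real.log (Real.log X) * (κ * Real.log (Real.log X)) :=
        mul_le_mul hpi hlk hlk0 (by positivity)
      refine h3.trans (le_of_eq ?_)
      rw [hκ]
      field_simp
    have h4 : (k : ℝ) ^ (Nat.primeCounting Y) = Real.exp ((Nat.primeCounting Y : ℝ) * Real.log k) := by
      rw [mul_comm, Real.exp_mul, Real.exp_log hk0, Real.rpow_natCast]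
    rw [h4, Real.rpow_def_of_pos hX0]
    apply Real.exp_le_exp.2
    linarith
  -- the levels
  have hcover : (Icc 1 ⌊X⌋₊).filter (fun n : ℕ => (1 + ε) * Real.log n ≤ q n k) ⊆
      Icc 1 ⌊X ^ (δ / 2)⌋₊ ∪ ((Icc 1 L).filter (fun i : ℕ => δ / 2 * L < (i : ℝ))).biUnion (fun i =>
        (Icc 1 ⌊X ^ ((i : ℝ) / L)⌋₊).filter
          (fun n : ℕ => (1 + ε / 2) * Real.log (X ^ ((i : ℝ) / L)) < q n k)) := by
    intro n hn
    rw [mem_filter, mem_Icc] at hn
    obtain ⟨⟨n1, n2⟩, n3⟩ := hn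
    have hnR : (1 : ℝ) ≤ n := by exact_mod_cast n1
    have hnX : (n : ℝ) ≤ X := (Nat.cast_le.2 n2).trans (Nat.floor_le hX0.le)
    rw [mem_union]
    by_cases hcase : (n : ℝ) ≤ X ^ (δ / 2)
    · left
      rw [mem_Icc]
      exact ⟨n1, Nat.le_floor hcase⟩
    · right
      push Not at hcase
      have hln : 0 ≤ Real.log n := Real.log_nonneg hnR
      have hlnX : Real.log n ≤ Real.log X := Real.log_le_log (by linarith) hnX
      have hlnδ : δ / 2 * Real.log X < Real.log n := by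
        have := Real.log_lt_log (Real.rpow_pos_of_pos hX0 _) hcase
        rwa [Real.log_rpow hX0] at this
      obtain ⟨i, hi⟩ : ∃ i : ℕ, i = ⌈(L : ℝ) * Real.log n / Real.log X⌉₊ := ⟨_, rfl⟩
      have hi1 : (L : ℝ) * Real.log n / Real.log X ≤ i := by rw [hi]; exact Nat.le_ceil _
      have hi2 : (i : ℝ) < (L : ℝ) * Real.log n / Real.log X + 1 := by
        rw [hi]; exact Nat.ceil_lt_add_one (by positivity)
      have hi3 : δ / 2 * L < (i : ℝ) := by
        refine lt_of_lt_of_le ?_ hi1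
        rw [lt_div_iff₀ hlX]
        nlinarith
      have hi4 : i ≤ L := by
        rw [hi]
        apply Nat.ceil_le.2
        rw [div_le_iff₀ hlX]
        exact mul_le_mul_of_nonneg_left hlnX hL0.le
      have hi5 : 1 ≤ i := by
        have : (0 : ℝ) < i := lt_trans (by positivity) hi3
        exact_mod_cast this
      rw [div_le_iff₀ hlX] at hi1
      have hi6 : ((i : ℝ) - 1) * Real.log X < L * Real.log n := by
        have : (i : ℝ) - 1 < (L : ℝ) * Real.log n / Real.log X := by linarith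
        rwa [lt_div_iff₀ hlX] at this
      have hbig : 2 * (1 + ε) / ε < (i : ℝ) := by
        have h1 : 4 * (1 + ε) / (δ * ε) ≤ (L : ℝ) := by linarith
        have h2 : δ / 2 * (4 * (1 + ε) / (δ * ε)) ≤ δ / 2 * L :=
          mul_le_mul_of_nonneg_left h1 (by positivity)
        have h3 : δ / 2 * (4 * (1 + ε) / (δ * ε)) = 2 * (1 + ε) / ε := by
          field_simp
          ring
        linarith
      rw [mem_biUnion]
      refine ⟨i, ?_, ?_⟩
      · rw [mem_filter, mem_Icc]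
        exact ⟨⟨hi5, hi4⟩, hi3⟩
      · rw [mem_filter, mem_Icc]
        refine ⟨⟨n1, ?_⟩, ?_⟩
        · apply Nat.le_floor
          have h1 : Real.log n ≤ (i : ℝ) / L * Real.log X := by
            rw [div_mul_eq_mul_div, le_div_iff₀ hL0]
            linarith
          calc (n : ℝ) = Real.exp (Real.log n) := (Real.exp_log (by linarith)).symm
            _ ≤ Real.exp ((i : ℝ) / L * Real.log X) := Real.exp_le_exp.2 h1
            _ = X ^ ((i : ℝ) / L) := by rw [Real.rpow_def_of_pos hX0, mul_comm]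
        · rw [Real.log_rpow hX0]
          refine lt_of_lt_of_le ?_ n3
          have h1 : (1 + ε / 2) * (i : ℝ) < (1 + ε) * ((i : ℝ) - 1) := by
            rw [div_lt_iff₀ hε] at hbig
            nlinarith
          have h2 : (1 + ε / 2) * (i : ℝ) * Real.log X < (1 + ε) * (L * Real.log n) := by
            calc (1 + ε / 2) * (i : ℝ) * Real.log X < (1 + ε) * ((i : ℝ) - 1) * Real.log X :=
                  mul_lt_mul_of_pos_right h1 hlX
              _ = (1 + ε) * (((i : ℝ) - 1) * Real.log X) := by ring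
              _ ≤ (1 + ε) * (L * Real.log n) := mul_le_mul_of_nonneg_left hi6.le (by linarith)
          have h3 : (1 + ε / 2) * ((i : ℝ) / L * Real.log X) = (1 + ε / 2) * (i : ℝ) * Real.log X / L := by
            ring
          rw [h3, div_lt_iff₀ hL0]
          linarith
  have hlevel : ∀ i ∈ (Icc 1 L).filter (fun i : ℕ => δ / 2 * L < (i : ℝ)),
      (((Icc 1 ⌊X ^ ((i : ℝ) / L)⌋₊).filter
        (fun n : ℕ => (1 + ε / 2) * Real.log (X ^ ((i : ℝ) / L)) < q n k)).card : ℝ) ≤ X ^ (δ / 4) := by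
    intro i hi
    rw [mem_filter, mem_Icc] at hi
    have hiL : (i : ℝ) ≤ L := by exact_mod_cast hi.1.2
    have h1 : δ / 2 ≤ (i : ℝ) / L := by
      rw [le_div_iff₀ hL0]; exact hi.2.le
    have h2 : Z₀ ≤ X ^ ((i : ℝ) / L) :=
      ((le_max_left _ _).trans e1).trans (Real.rpow_le_rpow_of_exponent_le e5.le h1)
    have h3 := hlev _ h2 k
    refine le_trans ?_ hkpow
    have h4 : k ^ (Nat.primeCounting ⌊(1 + ε / 2) * Real.log (X ^ ((i : ℝ) / L))⌋₊) ≤
        k ^ (Nat.primeCounting Y) := by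
      apply Nat.pow_le_pow_right hk
      apply Nat.monotone_primeCounting
      rw [hY]
      apply Nat.floor_mono
      apply mul_le_mul_of_nonneg_left _ (by positivity)
      rw [Real.log_rpow hX0]
      have : (i : ℝ) / L ≤ 1 := by rw [div_le_one hL0]; exact hiL
      nlinarith
    exact_mod_cast h3.trans h4
  have hc1 : (((Icc 1 ⌊X⌋₊).filter (fun n : ℕ => (1 + ε) * Real.log n ≤ q n k)).card : ℝ) ≤
      (Icc 1 ⌊X ^ (δ / 2)⌋₊).card + ∑ i ∈ (Icc 1 L).filter (fun i : ℕ => δ / 2 * L < (i : ℝ)),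
        (((Icc 1 ⌊X ^ ((i : ℝ) / L)⌋₊).filter
          (fun n : ℕ => (1 + ε / 2) * Real.log (X ^ ((i : ℝ) / L)) < q n k)).card : ℝ) := by
    have := (card_le_card hcover).trans ((card_union_le _ _).trans
      (Nat.add_le_add_left (Finset.card_biUnion_le) _))
    exact_mod_cast this
  have hc2 : ∑ i ∈ (Icc 1 L).filter (fun i : ℕ => δ / 2 * L < (i : ℝ)),
        (((Icc 1 ⌊X ^ ((i : ℝ) / L)⌋₊).filter
          (fun n : ℕ => (1 + ε / 2) * Real.log (X ^ ((i : ℝ) / L)) < q n k)).card : ℝ) ≤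
      L * X ^ (δ / 4) := by
    refine (Finset.sum_le_sum hlevel).trans ?_
    rw [Finset.sum_const, nsmul_eq_mul]
    apply mul_le_mul_of_nonneg_right _ (Real.rpow_nonneg hX0.le _)
    have : ((Icc 1 L).filter (fun i : ℕ => δ / 2 * L < (i : ℝ))).card ≤ L :=
      (card_filter_le _ _).trans (by simp)
    exact_mod_cast this
  have hc3 : ((Icc 1 ⌊X ^ (δ / 2)⌋₊).card : ℝ) ≤ X ^ (δ / 2) := by
    rw [Nat.card_Icc, Nat.add_sub_cancel]
    exact Nat.floor_le (Real.rpow_nonneg hX0.le _)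
  have hc4 : X ^ (δ / 4) ≤ X ^ (δ / 2) := Real.rpow_le_rpow_of_exponent_le e5.le (by linarith)
  have hc5 : X ^ δ = X ^ (δ / 2) * X ^ (δ / 2) := by
    rw [← Real.rpow_add hX0]; ring_nf
  have hc6 : 0 < X ^ (δ / 2) := Real.rpow_pos_of_pos hX0 _
  rw [hc5]
  nlinarith

theorem lower (ε : ℝ) (hε : 0 < ε) (hε1 : ε < 1) : ∃ X₀ : ℝ, ∀ X : ℝ, X₀ ≤ X → ∀ k : ℕ, 1 ≤ k →
    X ^ (ε / 2) ≤ (((Icc 1 ⌊X⌋₊).filter (fun n : ℕ => (1 - ε) * Real.log n ≤ q n k)).card : ℝ) := by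
  classical
  have h1 := ev_theta (ε / 4) (by positivity)
  have h2 : Tendsto (fun X : ℝ => (1 - ε) * Real.log X) atTop atTop :=
    Real.tendsto_log_atTop.const_mul_atTop (by linarith)
  have h3 : ∀ᶠ X : ℝ in atTop, 2 ≤ X ^ (ε / 4) :=
    (tendsto_rpow_atTop (by positivity)).eventually_ge_atTop _
  obtain ⟨X₀, hX₀⟩ := eventually_atTop.1 (((h2.eventually h1).and (h2.eventually_ge_atTop 2)).and
    (h3.and (eventually_gt_atTop (1 : ℝ))))
  refine ⟨X₀, fun X hX k hk => ?_⟩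
  obtain ⟨⟨⟨_, e1⟩, e2⟩, e3, e4⟩ := hX₀ X hX
  have hX0 : 0 < X := by linarith
  have hl : 0 < Real.log X := Real.log_pos e4
  obtain ⟨Y, hY⟩ : ∃ Y : ℕ, Y = ⌊(1 - ε) * Real.log X⌋₊ := ⟨_, rfl⟩
  obtain ⟨Q, hQ⟩ : ∃ Q : ℕ, Q = primorial Y := ⟨_, rfl⟩
  have hY2 : 2 ≤ Y := by rw [hY]; exact Nat.le_floor e2
  have hQ2 : 2 ≤ Q := by
    rw [hQ]
    have := primorial_mono hY2
    rwa [primorial_two] at this
  have hQX : (Q : ℝ) ≤ X ^ (1 - 3 * ε / 4) := by
    rw [hQ, hY, primorial_eq_exp, Real.rpow_def_of_pos hX0]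
    apply Real.exp_le_exp.2
    refine e1.trans ?_
    have : (1 + ε / 4) * ((1 - ε) * Real.log X) = (1 - 3 * ε / 4 - ε ^ 2 / 4) * Real.log X := by ring
    rw [this]
    have : 0 ≤ ε ^ 2 / 4 * Real.log X := by positivity
    nlinarith
  have hQ0 : (0 : ℝ) < Q := by
    have : 0 < Q := by omega
    exact_mod_cast this
  obtain ⟨R, hR⟩ : ∃ R : ℕ, R = ⌊X ^ (3 * ε / 4)⌋₊ := ⟨_, rfl⟩
  have hRQ : (R : ℝ) * Q ≤ X := by
    have h5 : (R : ℝ) ≤ X ^ (3 * ε / 4) := by rw [hR]; exact Nat.floor_le (Real.rpow_nonneg hX0.le _)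
    calc (R : ℝ) * Q ≤ X ^ (3 * ε / 4) * X ^ (1 - 3 * ε / 4) :=
          mul_le_mul h5 hQX hQ0.le (Real.rpow_nonneg hX0.le _)
      _ = X := by rw [← Real.rpow_add hX0]; ring_nf; exact Real.rpow_one X
  have hsub : (Icc 1 R).image (fun j => j * Q - 1) ⊆
      (Icc 1 ⌊X⌋₊).filter (fun n : ℕ => (1 - ε) * Real.log n ≤ q n k) := by
    intro n hn
    rw [mem_image] at hn
    obtain ⟨j, hj, rfl⟩ := hn
    rw [mem_Icc] at hj
    have hjQ : Q ≤ j * Q := Nat.le_mul_of_pos_left Q hj.1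
    have hjR : ((j * Q : ℕ) : ℝ) ≤ X := by
      refine le_trans ?_ hRQ
      push_cast
      exact mul_le_mul_of_nonneg_right (by exact_mod_cast hj.2) hQ0.le
    rw [mem_filter, mem_Icc]
    have hn1 : 1 ≤ j * Q - 1 := by omega
    have hnX : ((j * Q - 1 : ℕ) : ℝ) ≤ X := by
      refine le_trans ?_ hjR
      exact_mod_cast Nat.sub_le _ _
    refine ⟨⟨hn1, Nat.le_floor hnX⟩, ?_⟩
    have h6 : Y + 1 ≤ q (j * Q - 1) k := by
      apply le_q
      intro p hp hpY
      have h7 : p ∣ j * Q := by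
        rw [hQ]
        exact Dvd.dvd.mul_left ((hp.dvd_primorial_iff).2 hpY) j
      have h8 : j * Q = (j * Q - 1) + 1 := by omega
      rw [h8] at h7
      exact h7.trans (Finset.dvd_prod_of_mem (fun i => (j * Q - 1) + i) (mem_Icc.2 ⟨le_rfl, hk⟩))
    have h9 : (1 - ε) * Real.log X < (Y : ℝ) + 1 := by rw [hY]; exact Nat.lt_floor_add_one _
    have h10 : ((Y + 1 : ℕ) : ℝ) ≤ q (j * Q - 1) k := by exact_mod_cast h6
    have h11 : Real.log ((j * Q - 1 : ℕ) : ℝ) ≤ Real.log X :=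
      Real.log_le_log (by exact_mod_cast hn1) hnX
    have h12 : (1 - ε) * Real.log ((j * Q - 1 : ℕ) : ℝ) ≤ (1 - ε) * Real.log X :=
      mul_le_mul_of_nonneg_left h11 (by linarith)
    push_cast at h10
    linarith
  have hinj : Set.InjOn (fun j => j * Q - 1) (Icc 1 R : Set ℕ) := by
    intro j hj j' hj' e
    rw [Finset.mem_coe, mem_Icc] at hj hj'
    have h5 : Q ≤ j * Q := Nat.le_mul_of_pos_left Q hj.1
    have h6 : Q ≤ j' * Q := Nat.le_mul_of_pos_left Q hj'.1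
    have e' : j * Q - 1 = j' * Q - 1 := e
    have h7 : j * Q = j' * Q := by omega
    exact Nat.eq_of_mul_eq_mul_right (by omega) h7
  have hcard := card_le_card hsub
  rw [Finset.card_image_of_injOn hinj, Nat.card_Icc, Nat.add_sub_cancel] at hcard
  have h13 : X ^ (3 * ε / 4) < (R : ℝ) + 1 := by rw [hR]; exact Nat.lt_floor_add_one _
  have h14 : X ^ (3 * ε / 4) = X ^ (ε / 2) * X ^ (ε / 4) := by
    rw [← Real.rpow_add hX0]; ring_nf
  have h15 : 1 ≤ X ^ (ε / 2) := Real.one_le_rpow e4.le (by positivity)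
  have h16 : X ^ (ε / 2) ≤ (R : ℝ) := by nlinarith
  exact h16.trans (by exact_mod_cast hcard)

end Pool.Agent.K6.H26.LP
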